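import Pool.Agent.TH981.SD.Final

/-!
# Seed distinguishability in sublinear preferential attachment trees (MP_0bba14_pr)

For every `α ∈ (0,1)` and all non-isomorphic finite trees `S`, `T` with at least three vertices,
the total variation distance between the random unlabelled trees `PA_α(n,S)` and `PA_α(n,T)`
converges, as `n → ∞`, to a limit `δ > 0`.
-/

set_option autoImplicit false

namespace Pool.Agent.Results.MP_0bba14_pr.SeedDistinguishability

open Filter
open scoped Topology BigOperators Classical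

/-- `attachLeaf G v`: the graph `G` on `Fin n` together with one new vertex `Fin.last n`, which is
joined by a single edge to the old vertex `v`. -/
noncomputable def attachLeaf {n : ℕ} (G : SimpleGraph (Fin n)) (v : Fin n) :
    SimpleGraph (Fin (n + 1)) :=
  G.map Fin.castSucc ⊔ SimpleGraph.edge v.castSucc (Fin.last n)

/-- `attachProb α G v = deg(v)^α / ∑_w deg(w)^α`. -/
noncomputable def attachProb (α : ℝ) {n : ℕ} (G : SimpleGraph (Fin n)) (v : Fin n) : ℝ :=
  ((G.neighborSet v).ncard : ℝ) ^ α / ∑ w, ((G.neighborSet w).ncard : ℝ) ^ α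

/-- `PA α S m G` is the probability that the preferential attachment tree with `k + m` vertices
started from the seed `S` on `k` vertices (with its vertices labelled in the order of arrival) is
equal to `G`. -/
noncomputable def PA (α : ℝ) {k : ℕ} (S : SimpleGraph (Fin k)) :
    (m : ℕ) → SimpleGraph (Fin (k + m)) → ℝ
  | 0 => fun G => if G = S then 1 else 0
  | m + 1 => fun G' => ∑ G : SimpleGraph (Fin (k + m)), ∑ v : Fin (k + m),
      PA α S m G * attachProb α G v * (if attachLeaf G v = G' then 1 else 0)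

/-- An event for unlabelled graphs: for every `n` a set of graphs on `Fin n` that is closed under
graph isomorphism. -/
def IsoClosed (A : (n : ℕ) → Set (SimpleGraph (Fin n))) : Prop :=
  ∀ n (G H : SimpleGraph (Fin n)), Nonempty (G ≃g H) → (G ∈ A n ↔ H ∈ A n)

/-- `prob α S A m` is the probability that the tree with `k + m` vertices started from `S` lies
in `A`. -/
noncomputable def prob (α : ℝ) {k : ℕ} (S : SimpleGraph (Fin k))
    (A : (n : ℕ) → Set (SimpleGraph (Fin n))) (m : ℕ) : ℝ :=
  ∑ G : SimpleGraph (Fin (k + m)), if G ∈ A (k + m) then PA α S m G else 0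

/-- `dTV α S T n`, for `n ≥ k, l`, is the total variation distance of the random unlabelled trees
`PA_α(n,S)` and `PA_α(n,T)`: the supremum of `|P(A) - Q(A)|` over the events `A` that are closed
under isomorphism. -/
noncomputable def dTV (α : ℝ) {k l : ℕ} (S : SimpleGraph (Fin k)) (T : SimpleGraph (Fin l))
    (n : ℕ) : ℝ :=
  sSup {x : ℝ | ∃ A : (n : ℕ) → Set (SimpleGraph (Fin n)), IsoClosed A ∧
    x = |prob α S A (n - k) - prob α T A (n - l)|}

theorem dg_eq {n : ℕ} (G : SimpleGraph (Fin n)) (v : Fin n) :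
    Pool.Agent.TH981.SD.dg G v = (G.neighborSet v).ncard := by
  unfold Pool.Agent.TH981.SD.dg
  rw [← Set.ncard_coe_finset]
  congr 1
  ext w
  simp

theorem attach_eq {n : ℕ} (G : SimpleGraph (Fin n)) (v : Fin n) :
    Pool.Agent.TH981.SD.attach G v = attachLeaf G v := by
  ext a b
  simp only [attachLeaf, Pool.Agent.TH981.SD.attach, SimpleGraph.sup_adj, SimpleGraph.map_adj',
    SimpleGraph.edge_adj]
  constructor
  · rintro (⟨i, j, rfl, rfl, h⟩ | ⟨rfl, rfl⟩ | ⟨rfl, rfl⟩)
    · exact Or.inl ⟨fun e => h.ne (Fin.castSucc_injective _ e), i, j, h, rfl, rfl⟩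
    · exact Or.inr ⟨Or.inr ⟨rfl, rfl⟩, (Fin.castSucc_lt_last v).ne'⟩
    · exact Or.inr ⟨Or.inl ⟨rfl, rfl⟩, (Fin.castSucc_lt_last v).ne⟩
  · rintro (⟨_, i, j, h, rfl, rfl⟩ | ⟨⟨rfl, rfl⟩ | ⟨rfl, rfl⟩, _⟩)
    · exact Or.inl ⟨i, j, rfl, rfl, h⟩
    · exact Or.inr (Or.inr ⟨rfl, rfl⟩)
    · exact Or.inr (Or.inl ⟨rfl, rfl⟩)

theorem law_eq (α : ℝ) {k : ℕ} (S : SimpleGraph (Fin k)) (m : ℕ) :
    Pool.Agent.TH981.SD.law α S m = PA α S m := by
  induction m with
  | zero => rfl
  | succ m ih =>
    funext G'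
    simp only [Pool.Agent.TH981.SD.law, PA, attachProb, ih, dg_eq, attach_eq]

theorem dTV_eq (α : ℝ) {k l : ℕ} (S : SimpleGraph (Fin k)) (T : SimpleGraph (Fin l)) :
    Pool.Agent.TH981.SD.dTV α S T = dTV α S T := by
  funext n
  simp only [Pool.Agent.TH981.SD.dTV, dTV, prob, IsoClosed, law_eq]

/-- **Seed distinguishability in sublinear preferential attachment.** Let `α ∈ (0,1)`, and let
`S`, `T` be non-isomorphic finite trees with at least three vertices each. Then the total
variation distance between `PA_α(n,S)` and `PA_α(n,T)` (as random unlabelled trees) converges to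
a strictly positive limit as `n → ∞`. -/
theorem result (α : ℝ) (hα0 : 0 < α) (hα1 : α < 1) (k l : ℕ) (S : SimpleGraph (Fin k))
    (T : SimpleGraph (Fin l)) (hk : 3 ≤ k) (hl : 3 ≤ l) (hS : S.IsTree) (hT : T.IsTree)
    (hST : ¬ Nonempty (S ≃g T)) :
    ∃ δ : ℝ, 0 < δ ∧ Tendsto (dTV α S T) atTop (𝓝 δ) := by
  rw [← dTV_eq]
  exact Pool.Agent.TH981.SD.Final.result_ α hα0 hα1 k l S T hk hl hS hT hST

end Pool.Agent.Results.MP_0bba14_pr.SeedDistinguishability
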